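import Pool.Agent.Q196.DE.Final

/-!
# A degenerate Laplace eigenvalue has multiplicity at least eight

`M` is a connected smooth manifold without boundary, of any dimension `n`, and `g` is a smooth
Riemannian metric on it (compactness is not used, so closed manifolds are a special case).
The manifold is modelled on a finite-dimensional inner product space `E`, for instance
`EuclideanSpace ℝ (Fin n)`, and `b` is a basis of `E` in which coordinates are taken.
The definitions are in `Pool/Agent/Q196/DE/Defs.lean`:

* `laplacian b g e f y` is the coordinate formula `|g|^{-1/2} ∂_j (|g|^{1/2} g^{jk} ∂_k f)` in the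
  chart `e`, at the point with coordinates `y`;
* `IsEigenfunction b g lam f` says that `f` is smooth and `Δ_g f = lam f` in every chart of the
  atlas, and `eigenspace b g lam` is the space of these functions; its dimension (`Module.rank`,
  a cardinal) is the multiplicity;
* `IsDegenerateFamily b g lam ε u`: `u_1, …, u_k` are linearly independent eigenfunctions, the
  `ε_j` are signs, `∑ ε_j u_j² = 0` and `∑ ε_j du_j ⊗ du_j = 0`;
* `IsDegenerate b g lam`: `lam ≠ 0`, the multiplicity is at least two, and there is a nonempty
  family as above.

The theorem says that such a family has at least four signs `+1` and at least four signs `-1`,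
so that a degenerate eigenvalue has multiplicity at least eight. In particular it is never seven.
-/

set_option autoImplicit false

open scoped Manifold ContDiff

namespace Pool.Agent.Results.MP_f97e06_gt.MultiplicityEight

open Pool.Agent.Q196.DE

theorem result {E : Type*} [NormedAddCommGroup E] [InnerProductSpace ℝ E] [FiniteDimensional ℝ E]
    {M : Type*} [TopologicalSpace M] [ChartedSpace E M] [IsManifold 𝓘(ℝ, E) ∞ M]
    [ConnectedSpace M] {n : ℕ} (b : Module.Basis (Fin n) ℝ E) (g : Metric E M) (lam : ℝ) :
    (∀ (k : ℕ) (ε : Fin k → ℝ) (u : Fin k → M → ℝ), 1 ≤ k → IsDegenerateFamily b g lam ε u →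
      4 ≤ (Finset.univ.filter fun j => ε j = 1).card ∧
        4 ≤ (Finset.univ.filter fun j => ε j = -1).card) ∧
    (IsDegenerate b g lam → 8 ≤ Module.rank ℝ (eigenspace b g lam)) :=
  ⟨fun _ _ _ hk h => main hk h, fun h => main_rank h⟩

end Pool.Agent.Results.MP_f97e06_gt.MultiplicityEight
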